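import Pool.Agent.helper64.Kus.Main

/-!
# An unstable spherical cluster with connected cells

Kusner's question: is every cluster in `ℝ³` with spherical interfaces that meet according to
Plateau's laws stable?  We prove that the answer is negative, with connected cells.

The cluster has 188 cells (187 bounded ones and the exterior).  In the three-sphere it is an
icosahedrally symmetric shell of 186 cells which separates two large cells; it is flattened by a
stereographic projection whose pole is the centre of one of the cells of the shell.  The velocity of
the deformation is the curl of an explicit vector field, made exactly volume preserving.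
-/

open MeasureTheory Kusner
open scoped ContDiff

namespace Pool.Agent.Results.MP_5bdae7_gt.ConnectedCells

/-- There are a cluster of bounded cells, all of whose cells (the exterior included) are connected,
with spherical interfaces obeying Plateau's laws and Laplace's law, and a smooth volume-preserving
family of deformations along which the total interface area is finite and differentiable, has
derivative zero at time zero, and has negative second derivative at time zero. -/
theorem result : ∃ (k : ℕ) (Ω : Fin k → Set E3),
    IsCluster Ω ∧ (∀ i, Bornology.IsBounded (Ω i)) ∧ (∀ i, IsConnected (cell Ω i)) ∧
    HasSphericalInterfaces Ω ∧ ObeysPlateau Ω ∧ PressureBalanced Ω ∧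
    ∃ φ : ℝ → E3 → E3, IsDeformation φ ∧ PreservesVolumes Ω φ ∧
      (∀ t i j, i ≠ j → μH[2] (φ t '' interface Ω i j) < ⊤) ∧
      Differentiable ℝ (area Ω φ) ∧ deriv (area Ω φ) 0 = 0 ∧
      ∃ a < 0, HasDerivAt (deriv (area Ω φ)) a 0 :=
  Kus64.main

end Pool.Agent.Results.MP_5bdae7_gt.ConnectedCells
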